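import Mathlib
import Pool.Agent.Gold.W.HubS

/-!
# The Birkhoff-Lewis conjecture at the points `1 + 4 cos² (π / n)` of the interval (4, 5)

Let `G` be a subgraph of a graph `H` drawn in the plane, let `t` be any vertex and let `T` be a
set of at most two vertices that is connected in `H`, such that `G - t - T` is bipartite; let
`n ≥ 7`, and `n` even if `T` has two elements.  Then the chromatic polynomial of `G` is positive at
`1 + 4 cos² (π / n)`.  The theorem also allows hubs as in `HubTransversal`.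
-/

set_option autoImplicit false

namespace Pool.Agent.Helper81.BL.ShiftedPoints

/-- The graph `H` is drawn in the plane: the vertices are different points, the edges are injective
arcs that pass through no further vertex, and arcs of different edges have disjoint interiors. -/
def Drawn {V : Type} (H : SimpleGraph V) : Prop :=
  ∃ (f : V → ℝ × ℝ) (γ : V → V → ℝ → ℝ × ℝ),
    Function.Injective f ∧
    (∀ u v : V, H.Adj u v →
      ContinuousOn (γ u v) (Set.Icc (0 : ℝ) 1) ∧ Set.InjOn (γ u v) (Set.Icc (0 : ℝ) 1) ∧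
      γ u v 0 = f u ∧ γ u v 1 = f v ∧
      ∀ t ∈ Set.Ioo (0 : ℝ) 1, ∀ w : V, γ u v t ≠ f w) ∧
    (∀ u v u' v' : V, H.Adj u v → H.Adj u' v' → s(u, v) ≠ s(u', v') →
      ∀ t ∈ Set.Ioo (0 : ℝ) 1, ∀ t' ∈ Set.Ioo (0 : ℝ) 1, γ u v t ≠ γ u' v' t')

/-- The neighbours of `v` in `G` that are not in `C` or come later than `v` in the ordering of `C`
given by `ρ`. -/
def later {V : Type} (G : SimpleGraph V) (C : Set V) (ρ : V → ℕ) (v : V) : Set V :=
  {w | G.Adj v w ∧ (w ∈ C → ρ v < ρ w)}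

theorem shifted (V : Type) [Fintype V] [DecidableEq V] (G : SimpleGraph V) (p : Polynomial ℝ)
    (hp : ∀ n : ℕ, p.eval (n : ℝ) = (Nat.card (G.Coloring (Fin n)) : ℝ)) :
    ∀ H : SimpleGraph V, G ≤ H → Drawn H →
      ∀ (t : V) (T : Finset V), (H.induce (T : Set V)).Preconnected →
      ∀ (C : Set V) (ρ : V → ℕ), Set.InjOn ρ C → ∀ κ : V → Bool,
        (∀ u v : V, G.Adj u v → u ∉ insert t T → v ∉ insert t T → u ∉ C → v ∉ C → κ u ≠ κ v) →
        (∀ v ∈ C, v ∉ insert t T ∧ (later G C ρ v).ncard ≤ 4 ∧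
          (∀ a b c : V, a ∈ later G C ρ v → b ∈ later G C ρ v → c ∈ later G C ρ v →
            a ≠ b → b ≠ c → a ≠ c → G.Adj a b ∨ G.Adj b c ∨ G.Adj a c) ∧
          (∀ a b : V, a ∈ later G C ρ v → b ∈ later G C ρ v → a ≠ b →
            G.Adj a b ∨ (a ∉ C ∧ b ∉ C ∧ (a ∈ insert t T ∨ b ∈ insert t T ∨ κ a = κ b)))) →
        ∀ n : ℕ, 7 ≤ n → (T.card ≤ 1 ∨ (T.card ≤ 2 ∧ Even n)) →
          0 < p.eval (1 + 4 * Real.cos (Real.pi / n) ^ 2) := by
  rintro H hGH ⟨f, γ, h1, h2, h3⟩ t T hT C ρ hρ κ hκ hC n hn hTn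
  have hH : Helper55.BLE.HubsN G (insert t T) C ρ κ := by
    refine ⟨fun v hv => (hC v hv).1, hρ, fun v hv => (hC v hv).2.1,
      fun v hv a ha b hb c hc h4 h5 h6 => (hC v hv).2.2.1 a b c ha hb hc h4 h5 h6,
      fun v hv a ha b hb h4 => ?_, fun u w h4 h5 h6 h7 h8 => hκ u w h8 h6 h7 h4 h5⟩
    rcases (hC v hv).2.2.2 a b ha hb h4 with h | ⟨h5, h6, h7⟩
    · exact Or.inl h
    · refine Or.inr ⟨h5, h6, fun h8 h9 => ?_⟩
      rcases h7 with h7 | h7 | h7
      · exact absurd h7 h8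
      · exact absurd h7 h9
      · exact h7
  exact Helper55.BLE.W.transversal_pos ⟨h1, h2, h3⟩ hGH T hT t C ρ κ hH hn hTn p hp

end Pool.Agent.Helper81.BL.ShiftedPoints
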